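import Pool.Agent.MWGP.Stmts

/-!
# Row RDG of MWGP (helper66): all pairs with a light letter (twin of RDL of MWHQ, helper75)
-/

set_option autoImplicit false

namespace Pool.Agent.MWGP.H66

open Pool.Agent.Helper14_MV Pool.Agent.Helper2_MV Pool.Agent.MVO Pool.Agent.MWL Pool.Agent.MWS
  Pool.Agent.MWH Pool.Agent.MWGP

theorem eg_self {β : FIC} {k : ℕ} {a b : ℕ → ℕ} {i : ℕ} {s s' : Stt}
    (h : JPp β (asm k (W a b i s), asm k (W a b i s'))) : Eg β k a b i s s' := by
  refine ⟨[(asm k (W a b i s), asm k (W a b i s'))], fun e' he => ?_,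
    fun θ _ _ => ⟨fun ht e' he => ?_, fun ht => ?_⟩⟩
  · rw [List.mem_singleton] at he
    rw [he]; exact h
  · rw [List.mem_singleton] at he
    rw [he]; exact ht
  · exact ht _ (List.mem_singleton.2 rfl)

/-- **RDG** -/
theorem rdg (hD : MWHQ.DlbStmt) (hJ : JpgStmt) : RdgStmt := by
  intro n β hβ k
  induction k with
  | zero =>
    intro a b i hv hGa hGb hai
    have hi : i = 0 := Nat.le_zero.1 hv.ik
    obtain ⟨j1, j2⟩ := hJ n β hβ 0 a b i hv hGa hGb hai (fun j hj => by
      have hji : j = i := (Nat.le_zero.1 hj).trans hi.symm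
      rw [hji]
      exact Or.inl hv.ai)
    exact ⟨fun h => eg_self (j1 h), fun h => ⟨eg_self (j2 h).1, eg_self (j2 h).2⟩⟩
  | succ k ih =>
    intro a b i hv hGa hGb hai
    have vxy : Vs a b i Stt.xy := fun h => absurd h (by decide)
    have vyx : Vs a b i Stt.yx := fun h => absurd h (by decide)
    by_cases hall : ∀ j ≤ k + 1, a j ≠ 0 ∨ b j ≠ 0
    · obtain ⟨j1, j2⟩ := hJ n β hβ (k + 1) a b i hv hGa hGb hai hall
      exact ⟨fun h => eg_self (j1 h), fun h => ⟨eg_self (j2 h).1, eg_self (j2 h).2⟩⟩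
    · obtain ⟨j, hj, haj, hbj⟩ : ∃ j, j ≤ k + 1 ∧ a j = 0 ∧ b j = 0 := by
        by_contra h
        apply hall
        intro j hj
        by_contra h2
        rw [not_or, not_not, not_not] at h2
        exact h ⟨j, hj, h2.1, h2.2⟩
      set f : ℕ → ℕ := fun r => if r < j then r else r + 1 with hf
      have hfr : ∀ r, f r = if r < j then r else r + 1 := fun r => rfl
      have hinj : ∀ r r', f r = f r' → r = r' := by
        intro r r' h
        rw [hfr, hfr] at h
        split_ifs at h <;> omega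
      have hmono : ∀ r r', r < r' → f r < f r' := by
        intro r r' h
        rw [hfr, hfr]
        split_ifs <;> omega
      have hle : ∀ r ≤ k, f r ≤ k + 1 := by
        intro r hr
        rw [hfr]
        split_ifs <;> omega
      obtain ⟨i', hi', hfi, hv', _⟩ :=
        hD n β β hβ.toBaseH (fun _ _ h => h) k a b i j hv hj haj hbj f hfr
      have hai' : a (f i') = 1 := by rw [hfi]; exact hai
      obtain ⟨q1, q2⟩ :=
        ih (fun r => a (f r)) (fun r => b (f r)) i' hv'
          (fun l r hlr hr h1 h2 => hGa (f l) (f r) (hmono l r hlr) (hle r hr) h1 h2)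
          (fun l r hlr hr h1 h2 => hGb (f l) (f r) (hmono l r hlr) (hle r hr) h1 h2) hai'
      have key : ∀ θ : FIC, β ≤ θ → ∀ s s' : Stt, Vs a b i s → Vs a b i s' →
          (Tr θ (k + 1) a b i s s' ↔
            Tr θ k (fun r => a (f r)) (fun r => b (f r)) i' s s') := by
        intro θ hθ s s' hs hs'
        obtain ⟨i2, _, hfi2, _, h4⟩ := hD n β θ hβ.toBaseH hθ k a b i j hv hj haj hbj f hfr
        have e : i2 = i' := hinj _ _ (by rw [hfi2, hfi])
        rw [← e]
        exact h4 s s' hs hs'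
      refine ⟨fun h => ?_, fun h => ?_⟩
      · obtain ⟨L1, hJ1, hL1⟩ := q1 (by show b (f i') = 1; rw [hfi]; exact h)
        exact ⟨L1, hJ1, fun θ hθ hn => (key θ hθ _ _ vxy vyx).trans (hL1 θ hθ hn)⟩
      · have vov : Vs a b i Stt.ov := fun _ => Or.inr h
        obtain ⟨⟨L1, hJ1, hL1⟩, ⟨L2, hJ2, hL2⟩⟩ := q2 (by show 2 ≤ b (f i'); rw [hfi]; exact h)
        exact ⟨⟨L1, hJ1, fun θ hθ hn => (key θ hθ _ _ vxy vov).trans (hL1 θ hθ hn)⟩,
          ⟨L2, hJ2, fun θ hθ hn => (key θ hθ _ _ vyx vov).trans (hL2 θ hθ hn)⟩⟩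

end Pool.Agent.MWGP.H66
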